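import Pool.Agent.Lib.MP_be0380_co.E.Reach

/-!
# be0380, (5.4): the edge lemma

`f = f_x`, `f' = f_y` are at most `1` on `A` and additive up to `ε` for `w` chips; fewer than `w`
elements `c` have `f c, f' c ≥ e0 / 2`; sets with fewer than `w` elements have an injective additive
function. Then `f + f' ≤ 1 + e0` on `A`.
-/

set_option autoImplicit false

namespace PoolBe0380.E

open Finset

/-- `f` is additive up to `ε` for `w` chips of `A` -/
def AddW {G : Type*} [AddCommGroup G] (A : Finset G) (w : ℕ) (ε : ℝ) (f : G → ℝ) : Prop :=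
  ∀ y y' : Fin w → G, (∀ i, y i ∈ A) → (∀ i, y' i ∈ A) → ∑ i, y i = ∑ i, y' i →
    |∑ i, f (y i) - ∑ i, f (y' i)| ≤ ε

variable {G : Type*} [AddCommGroup G] [DecidableEq G]

theorem edge {A : Finset G} (hA : NUS A) (h2 : ∀ x : G, x + x = 0 → x = 0) {w : ℕ}
    {f f' : G → ℝ} {ε e0 : ℝ} (hε : 4 * ε ≤ e0)
    (hf : ∀ c ∈ A, f c ≤ 1) (hf' : ∀ c ∈ A, f' c ≤ 1)
    (hadd : AddW A w ε f) (hadd' : AddW A w ε f')
    (hT2 : #(A.filter fun c => e0 / 2 ≤ f c ∧ e0 / 2 ≤ f' c) < w)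
    (hψ : ∀ E ⊆ A, #E < w → ∃ ψ : G → ℝ, Set.InjOn ψ E ∧ AddOn E ψ) :
    ∀ c ∈ A, f c + f' c ≤ 1 + e0 := by
  by_contra hcon
  push Not at hcon
  obtain ⟨c1, hc1, hlt1⟩ := hcon
  obtain ⟨c0, hc0, hmax⟩ := exists_max_image A (fun c => f c + f' c) ⟨c1, hc1⟩
  have hlt : 1 + e0 < f c0 + f' c0 := lt_of_lt_of_le hlt1 (hmax c1 hc1)
  set E := A.filter fun c => e0 / 2 ≤ f c ∧ e0 / 2 ≤ f' c with hE
  have hEw : #E < w := hT2
  have hEA : E ⊆ A := filter_subset _ _
  obtain ⟨ψ, hinj, haddψ⟩ := hψ E (filter_subset _ _) hT2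
  have hkey : ∀ y : Fin w → G, ((∀ i, y i ∈ A) ∧ ∑ i, y i = ∑ _i : Fin w, c0) →
      ∀ i, y i ∈ E := by
    intro y hy i
    have h3 := (abs_le.mp (hadd y (fun _ => c0) hy.1 (fun _ => hc0) hy.2)).1
    have h4 := (abs_le.mp (hadd' y (fun _ => c0) hy.1 (fun _ => hc0) hy.2)).1
    -- all the other chips are at most the maximum
    have h5 : ∑ k ∈ univ.erase i, (f (y k) + f' (y k)) ≤ ∑ k ∈ univ.erase i, (f c0 + f' c0) :=
      sum_le_sum fun k _ => hmax _ (hy.1 k)
    have h6 := add_sum_erase univ (fun k => f (y k) + f' (y k)) (mem_univ i)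
    have h7 := add_sum_erase univ (fun _ : Fin w => f c0 + f' c0) (mem_univ i)
    rw [sum_add_distrib (s := univ)] at h6 h7
    have h8 : f c0 + f' c0 - 2 * ε ≤ f (y i) + f' (y i) := by linarith
    refine mem_filter.mpr ⟨hy.1 i, ?_, ?_⟩
    · have := hf' _ (hy.1 i)
      linarith
    · have := hf _ (hy.1 i)
      linarith
  have hreach := reach (E := E) hA h2 hEA hinj haddψ (univ : Finset (Fin w))
    (fun y => (∀ i, y i ∈ A) ∧ ∑ i, y i = ∑ _i : Fin w, c0)
    ⟨fun _ => c0, fun _ => hc0, rfl⟩ (fun y hy => hy.1) (fun y hy i _ => hkey y hy i) ?_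
  · rw [card_univ, Fintype.card_fin] at hreach
    omega
  · intro y hy i _ j _ hij c hc d hd hcd
    constructor
    · intro k
      by_cases hkj : k = j
      · rw [hkj, Function.update_self]; exact hd
      · rw [Function.update_of_ne hkj]
        by_cases hki : k = i
        · rw [hki, Function.update_self]; exact hc
        · rw [Function.update_of_ne hki]; exact hy.1 k
    · have h := sum_upd univ y (fun g => g) (mem_univ i) (mem_univ j) hij c d
      rw [h, hy.2, hcd]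
      abel

end PoolBe0380.E
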