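import Pool.Agent.Lib.MP_be0380_co.E.Edge

/-!
# be0380, (5.5): no leaning

`f = f_x`, `t = t_y`.  `κ`: least `g` of (T3), `T` the constant of (T3),
`#{c ∈ A : t c ≤ r, |f c| ≥ g} ≤ T r / g^2`.  Conclusion: `t d ≤ 6/10` implies
`f d ≤ √(t d + 2 ε) e1`.
-/

set_option autoImplicit false

namespace PoolBe0380.E

open Finset

variable {G : Type*} [AddCommGroup G] [DecidableEq G]

omit [AddCommGroup G] [DecidableEq G] in
private theorem sum_updI {ι : Type*} [DecidableEq ι] (J : Finset ι) (y : ι → G)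
    (F : ι → G → ℝ) {i j : ι} (hi : i ∈ J) (hj : j ∈ J) (hij : i ≠ j) (c d : G) :
    ∑ k ∈ J, F k (Function.update (Function.update y i c) j d k) =
      ∑ k ∈ J, F k (y k) + (F i c + F j d - F i (y i) - F j (y j)) := by
  have hj' : j ∈ J.erase i := mem_erase.mpr ⟨hij.symm, hj⟩
  rw [← add_sum_erase J _ hi, ← add_sum_erase (J.erase i) _ hj',
    ← add_sum_erase J (fun k => F k (y k)) hi, ← add_sum_erase (J.erase i) (fun k => F k (y k)) hj']
  have h1 : Function.update (Function.update y i c) j d i = c := by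
    rw [Function.update_of_ne hij, Function.update_self]
  have h2 : Function.update (Function.update y i c) j d j = d := Function.update_self _ _ _
  rw [h1, h2]
  have h3 : ∑ k ∈ (J.erase i).erase j, F k (Function.update (Function.update y i c) j d k) =
      ∑ k ∈ (J.erase i).erase j, F k (y k) := by
    refine sum_congr rfl fun k hk => ?_
    rw [mem_erase, mem_erase] at hk
    rw [Function.update_of_ne hk.1, Function.update_of_ne hk.2.1]
  rw [h3]
  ring

omit [AddCommGroup G] [DecidableEq G] in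
private theorem sum_updJ {ι : Type*} [DecidableEq ι] (J : Finset ι) (y : ι → G)
    (F : ι → G → ℝ) {i j : ι} (hi : i ∉ J) (hj : j ∈ J) (c d : G) :
    ∑ k ∈ J, F k (Function.update (Function.update y i c) j d k) =
      ∑ k ∈ J, F k (y k) + (F j d - F j (y j)) := by
  rw [← add_sum_erase J _ hj, ← add_sum_erase J (fun k => F k (y k)) hj]
  have h2 : Function.update (Function.update y i c) j d j = d := Function.update_self _ _ _
  rw [h2]
  have h3 : ∑ k ∈ J.erase j, F k (Function.update (Function.update y i c) j d k) =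
      ∑ k ∈ J.erase j, F k (y k) := by
    refine sum_congr rfl fun k hk => ?_
    rw [mem_erase] at hk
    rw [Function.update_of_ne hk.1, Function.update_of_ne]
    intro h
    exact hi (h ▸ hk.2)
  rw [h3]
  ring

omit [AddCommGroup G] [DecidableEq G] in
/-- a gap of length `g` in the values of `f` on `Y` -/
private theorem gap {Y : Finset G} {f : G → ℝ} {a g : ℝ} {m : ℕ} (hg : 0 < g)
    (hga : ((m : ℝ) + 1) * g ≤ a / 2) (hm : #(Y.filter fun c => a / 2 ≤ f c) ≤ m) :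
    ∃ θ : ℝ, a / 2 + g ≤ θ ∧ θ ≤ a ∧ ∀ c ∈ Y, f c < θ → f c < θ - g := by
  by_contra hcon
  push Not at hcon
  have h1 : ∀ j : Fin (m + 1), ∃ c ∈ Y, f c < a / 2 + ((j : ℕ) + 1) * g ∧
      a / 2 + ((j : ℕ) + 1) * g - g ≤ f c := by
    intro j
    refine hcon _ ?_ ?_
    · have : (0 : ℝ) ≤ ((j : ℕ) : ℝ) := Nat.cast_nonneg _
      nlinarith
    · have h : ((j : ℕ) : ℝ) + 1 ≤ (m : ℝ) + 1 := by
        have := Nat.lt_succ_iff.mp j.2
        exact_mod_cast Nat.succ_le_succ this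
      nlinarith
  choose c hc hlt hle using h1
  obtain ⟨i, -, j, -, hij, hcij⟩ := exists_ne_map_eq_of_card_lt_of_maps_to
    (s := (univ : Finset (Fin (m + 1)))) (t := Y.filter fun c => a / 2 ≤ f c)
    (by rw [card_univ, Fintype.card_fin]; omega) (f := c) (fun j _ => by
      refine mem_filter.mpr ⟨hc j, ?_⟩
      have h1 := hle j
      have : (0 : ℝ) ≤ ((j : ℕ) : ℝ) := Nat.cast_nonneg _
      nlinarith)
  have key : ∀ i j : Fin (m + 1), i < j → c i = c j → False := by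
    intro i j hlt2 hcij
    have h1 := hlt i
    have h2 := hle j
    rw [← hcij] at h2
    have h3 : ((i : ℕ) : ℝ) + 1 ≤ ((j : ℕ) : ℝ) := by exact_mod_cast hlt2
    nlinarith
  rcases lt_or_gt_of_ne hij with h | h
  · exact key i j h hcij
  · exact key j i h hcij.symm

/-- the combinatorial core of (5.5): the count of chips -/
private theorem core {A : Finset G} (hA : NUS A) (h2 : ∀ x : G, x + x = 0 → x = 0) {w : ℕ}
    {f : G → ℝ} {ε g θ : ℝ} (hεg : 4 * ε ≤ g)
    (hf2 : ∀ a ∈ A, ∀ b ∈ A, ∀ c ∈ A, ∀ d ∈ A, a + b = c + d → |f a + f b - (f c + f d)| ≤ ε)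
    {S : G} {Y P : Finset G} (hYA : Y ⊆ A) (hP : ∀ c, c ∈ P ↔ c ∈ Y ∧ θ ≤ f c)
    (hgap : ∀ c ∈ Y, f c < θ → f c < θ - g)
    (hC : ∀ u : Fin w → G, (∀ i, u i ∈ A) → ∑ i, u i = S → ∀ i, u i ∈ Y)
    {ψ : G → ℝ} (hinj : Set.InjOn ψ Y) (hadd : AddOn Y ψ)
    {u0 : Fin w → G} (hu0 : ∀ i, u0 i ∈ A) (hu0S : ∑ i, u0 i = S) {i00 : Fin w} (hi00 : u0 i00 ∈ P)
    {n k : ℕ} (hn : ∀ u : Fin w → G, (∀ i, u i ∈ A) → ∑ i, u i = S →
      #(univ.filter fun i => u i ∈ P) ≤ n)
    (hk : k * #P + n ≤ w)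
    (hE : ∀ q ∈ P, ∀ E : Finset G, (∀ c ∈ E, c ∈ Y ∧ ((∃ b ∈ Y, ∃ b' ∈ Y, g / 2 ≤ f b ∧
      g / 2 ≤ f b' ∧ c = b + b' - q) ∨ g / 4 ≤ |f c|)) → #E < k) : False := by
  classical
  have hPA : P ⊆ A := fun c hc => hYA ((hP c).mp hc).1
  -- a function with the greatest number of chips in `P`
  have hne : ((Fintype.piFinset fun _ : Fin w => A).filter fun u => ∑ i, u i = S).Nonempty :=
    ⟨u0, mem_filter.mpr ⟨Fintype.mem_piFinset.mpr hu0, hu0S⟩⟩
  obtain ⟨u1, hu1, hmax1⟩ := exists_max_image _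
    (fun u : Fin w → G => #(univ.filter fun i => u i ∈ P)) hne
  obtain ⟨hu1A, hu1S⟩ := mem_filter.mp hu1
  rw [Fintype.mem_piFinset] at hu1A
  set IP : Finset (Fin w) := univ.filter fun i => u1 i ∈ P with hIP
  have hmaxP : ∀ u : Fin w → G, (∀ i, u i ∈ A) → ∑ i, u i = S →
      #(univ.filter fun i => u i ∈ P) ≤ #IP := fun u h1 h3 =>
    hmax1 u (mem_filter.mpr ⟨Fintype.mem_piFinset.mpr h1, h3⟩)
  -- no function of the class has its chips in `P` at `IP` and at one more place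
  have hnomore : ∀ u : Fin w → G, (∀ i, u i ∈ A) → ∑ i, u i = S → (∀ i ∈ IP, u i ∈ P) →
      ∀ j ∉ IP, u j ∉ P := by
    intro u h1 h3 h4 j hj hjP
    have h5 : insert j IP ⊆ univ.filter fun i => u i ∈ P := by
      intro i hi
      rcases mem_insert.mp hi with h | h
      · exact mem_filter.mpr ⟨mem_univ _, h ▸ hjP⟩
      · exact mem_filter.mpr ⟨mem_univ _, h4 i h⟩
    have h6 := (card_le_card h5).trans (hmaxP u h1 h3)
    rw [card_insert_of_notMem hj] at h6
    omega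
  have hIPne : 0 < #IP := by
    have h1 := hmaxP u0 hu0 hu0S
    have h3 : 0 < #(univ.filter fun i => u0 i ∈ P) :=
      card_pos.mpr ⟨i00, mem_filter.mpr ⟨mem_univ _, hi00⟩⟩
    omega
  obtain ⟨i0, hi0⟩ := card_pos.mp hIPne
  set Ic : Finset (Fin w) := IPᶜ with hIc
  have hIcc : #Ic = w - #IP := by rw [hIc, card_compl, Fintype.card_fin]
  have hIPn : #IP ≤ n := hn u1 hu1A hu1S
  -- the labels
  have hcard : Fintype.card (P × Fin k) ≤ Fintype.card Ic := by
    rw [Fintype.card_prod, Fintype.card_fin, Fintype.card_coe, Fintype.card_coe, hIcc]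
    have : #P * k = k * #P := mul_comm _ _
    omega
  obtain ⟨φ⟩ := Function.Embedding.nonempty_of_card_le hcard
  obtain ⟨lab, hlab⟩ : ∃ lab : Fin w → G, ∀ x : P × Fin k, lab (φ x : Fin w) = x.1 := by
    refine ⟨fun i => if h : ∃ x : P × Fin k, ((φ x : Ic) : Fin w) = i then (h.choose.1 : G)
      else 0, fun x => ?_⟩
    have h : ∃ x' : P × Fin k, ((φ x' : Ic) : Fin w) = ((φ x : Ic) : Fin w) := ⟨x, rfl⟩
    have h3 : h.choose = x := φ.injective (Subtype.ext h.choose_spec)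
    simp only [dif_pos h]
    rw [h3]
  -- the states
  let St : (Fin w → G) → Prop := fun u => (∀ i, u i ∈ A) ∧ ∑ i, u i = S ∧
    (∀ i ∈ IP, i ≠ i0 → u i = u1 i) ∧ u i0 ∈ P
  have hStP : ∀ u, St u → ∀ i ∈ IP, u i ∈ P := by
    intro u hu i hi
    by_cases h : i = i0
    · rw [h]; exact hu.2.2.2
    · rw [hu.2.2.1 i hi h]
      exact (mem_filter.mp hi).2
  have hStn : ∀ u, St u → ∀ i ∉ IP, u i ∉ P := fun u hu =>
    hnomore u hu.1 hu.2.1 (hStP u hu)
  let PHI : (Fin w → G) → ℝ := fun u => ψ (u i0) ^ 2 + ∑ i ∈ Ic, 2 * ψ (lab i) * ψ (u i)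
  have hSt1 : St u1 := ⟨hu1A, hu1S, fun _ _ _ => rfl, (mem_filter.mp hi0).2⟩
  have hne2 : ((Fintype.piFinset fun _ : Fin w => A).filter St).Nonempty :=
    ⟨u1, mem_filter.mpr ⟨Fintype.mem_piFinset.mpr hu1A, hSt1⟩⟩
  obtain ⟨u2, hu2, hmax2⟩ := exists_max_image _ PHI hne2
  have hSt2 : St u2 := (mem_filter.mp hu2).2
  have hmaxPHI : ∀ u, St u → PHI u ≤ PHI u2 := fun u hu =>
    hmax2 u (mem_filter.mpr ⟨Fintype.mem_piFinset.mpr hu.1, hu⟩)
  set q : G := u2 i0 with hq
  have hqP : q ∈ P := hSt2.2.2.2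
  have hqY : q ∈ Y := ((hP q).mp hqP).1
  -- the chips with label `q`
  let emb : Fin k → Fin w := fun s => ((φ (⟨q, hqP⟩, s) : Ic) : Fin w)
  have hemb : Function.Injective emb := by
    intro s s' h
    have h3 := φ.injective (Subtype.ext h)
    exact (Prod.ext_iff.mp h3).2
  set J : Finset (Fin w) := univ.image emb with hJ
  have hJc : #J = k := by
    rw [hJ, card_image_of_injective _ hemb, card_univ, Fintype.card_fin]
  have hJI : ∀ i ∈ J, i ∈ Ic ∧ lab i = q := by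
    intro i hi
    obtain ⟨s, -, rfl⟩ := mem_image.mp hi
    exact ⟨(φ (⟨q, hqP⟩, s)).2, hlab (⟨q, hqP⟩, s)⟩
  have hJIP : ∀ i ∈ J, i ∉ IP := fun i hi => by
    have := (hJI i hi).1
    rwa [hIc, mem_compl] at this
  set E : Finset G := Y.filter fun c => (∃ b ∈ Y, ∃ b' ∈ Y, g / 2 ≤ f b ∧
      g / 2 ≤ f b' ∧ c = b + b' - q) ∨ g / 4 ≤ |f c| with hEdef
  have hEk : #E < k := hE q hqP E fun c hc => mem_filter.mp hc
  have hEY : E ⊆ Y := filter_subset _ _
  have hi0c : i0 ∉ Ic := by rw [hIc, mem_compl, not_not]; exact hi0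
  -- values of an updated function
  have hupdA : ∀ (u : Fin w → G) (i j : Fin w) (c d : G), (∀ i, u i ∈ A) → c ∈ A → d ∈ A →
      ∀ s, Function.update (Function.update u i c) j d s ∈ A := by
    intro u i j c d hu hc hd s
    by_cases hsj : s = j
    · rw [hsj, Function.update_self]; exact hd
    · rw [Function.update_of_ne hsj]
      by_cases hsi : s = i
      · rw [hsi, Function.update_self]; exact hc
      · rw [Function.update_of_ne hsi]; exact hu s
  have hupdS : ∀ (u : Fin w → G) (i j : Fin w) (c d : G), ∑ i, u i = S → i ≠ j →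
      c + d = u i + u j → ∑ s, Function.update (Function.update u i c) j d s = S := by
    intro u i j c d hu hij hcd
    have h := sum_upd univ u (fun g => g) (mem_univ i) (mem_univ j) hij c d
    rw [h, hu, hcd]
    abel
  have hreach := reach (E := E) hA h2 (hEY.trans hYA) (hinj.mono (by exact_mod_cast hEY))
    (fun a ha b hb c hc d hd => hadd a (hEY ha) b (hEY hb) c (hEY hc) d (hEY hd)) J
    (fun u => St u ∧ u i0 = q ∧ PHI u = PHI u2) ⟨u2, hSt2, rfl, rfl⟩ (fun u hu => hu.1.1) ?_ ?_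
  · rw [hJc] at hreach
    omega
  · -- the chips with label `q` are in `E`
    rintro u ⟨hu, huq, huPHI⟩ i hi
    obtain ⟨hiIc, hlabi⟩ := hJI i hi
    have hiIP := hJIP i hi
    have hi0i : i0 ≠ i := fun h => hiIP (h ▸ hi0)
    have huY := hC u hu.1 hu.2.1
    have hui : u i ∉ P := hStn u hu i hiIP
    obtain ⟨c, hc, d, hd, hcd, hne3⟩ := hA q (hYA hqY) (u i) (hu.1 i)
    have hcd' : c + d = u i0 + u i := by rw [huq, hcd]
    have hdc' : d + c = u i0 + u i := by rw [add_comm, hcd']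
    -- the new pair lies in `Y`
    have hcl1A := hupdA u i0 i c d hu.1 hc hd
    have hcl1S := hupdS u i0 i c d hu.2.1 hi0i hcd'
    have hcY : c ∈ Y := by
      have := hC _ hcl1A hcl1S i0
      rwa [Function.update_of_ne hi0i, Function.update_self] at this
    have hdY : d ∈ Y := by
      have := hC _ hcl1A hcl1S i
      rwa [Function.update_self] at this
    -- a general fact on a new pair whose first element is in `P`
    have key : ∀ c d : G, c ∈ A → d ∈ A → c ∈ Y → d ∈ Y → c + d = u i0 + u i →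
        s(c, d) ≠ s(q, u i) → c ∉ P := by
      intro c d hc hd hcY hdY hcd hne hcP
      set u' := Function.update (Function.update u i0 c) i d with hu'
      have hA' := hupdA u i0 i c d hu.1 hc hd
      have hS' := hupdS u i0 i c d hu.2.1 hi0i hcd
      have hu'i0 : u' i0 = c := by
        rw [hu', Function.update_of_ne hi0i, Function.update_self]
      have hSt' : St u' := by
        refine ⟨hA', hS', ?_, ?_⟩
        · intro s hs hs0
          have hsi : s ≠ i := fun h => hiIP (h ▸ hs)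
          rw [hu', Function.update_of_ne hsi, Function.update_of_ne hs0]
          exact hu.2.2.1 s hs hs0
        · rw [hu'i0]; exact hcP
      have h3 := hmaxPHI u' hSt'
      have h4 : PHI u' = PHI u + (ψ c ^ 2 - ψ q ^ 2 + 2 * ψ q * (ψ d - ψ (u i))) := by
        have h5 := sum_updJ Ic u (fun i g => 2 * ψ (lab i) * ψ g) hi0c hiIc c d
        show ψ (u' i0) ^ 2 + ∑ i ∈ Ic, 2 * ψ (lab i) * ψ (u' i) =
          ψ (u i0) ^ 2 + ∑ i ∈ Ic, 2 * ψ (lab i) * ψ (u i) + _
        rw [hu'i0, huq]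
        rw [← hu'] at h5
        rw [h5, hlabi]
        ring
      have h6 : ψ c + ψ d = ψ q + ψ (u i) :=
        hadd c hcY d hdY q hqY (u i) (huY i) (by rw [hcd, huq])
      have h7 : PHI u' = PHI u + (ψ c - ψ q) ^ 2 := by
        rw [h4]
        have : ψ d = ψ q + ψ (u i) - ψ c := by linarith
        rw [this]; ring
      have h8 : ψ c = ψ q := by
        rw [h7, huPHI] at h3
        have : (ψ c - ψ q) ^ 2 ≤ 0 := by linarith
        have h9 : ψ c - ψ q = 0 := by
          rcases eq_or_ne (ψ c - ψ q) 0 with h | h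
          · exact h
          · have : 0 < (ψ c - ψ q) ^ 2 := by positivity
            linarith
        linarith
      have h9 : c = q := hinj (by exact_mod_cast hcY) (by exact_mod_cast hqY) h8
      have h10 : d = u i := by
        rw [huq, h9] at hcd
        exact add_left_cancel hcd
      exact hne (by rw [h9, h10])
    have hcP : c ∉ P := key c d hc hd hcY hdY hcd' hne3
    have hdP : d ∉ P := by
      refine key d c hd hc hdY hcY hdc' ?_
      rw [Sym2.eq_swap]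
      exact hne3
    have hfc : f c < θ - g := hgap c hcY (by
      by_contra h
      exact hcP ((hP c).mpr ⟨hcY, not_lt.mp h⟩))
    have hfd : f d < θ - g := hgap d hdY (by
      by_contra h
      exact hdP ((hP d).mpr ⟨hdY, not_lt.mp h⟩))
    refine mem_filter.mpr ⟨huY i, ?_⟩
    by_cases hfu : g / 4 ≤ |f (u i)|
    · exact Or.inr hfu
    · left
      push Not at hfu
      have h3 := (abs_le.mp (hf2 q (hYA hqY) (u i) (hu.1 i) c hc d hd hcd.symm)).2
      have h4 := (abs_lt.mp hfu).1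
      have h5 : θ ≤ f q := ((hP q).mp hqP).2
      refine ⟨c, hcY, d, hdY, by linarith, by linarith, ?_⟩
      rw [hcd]
      abel
  · -- pair moves of chips with label `q`
    rintro u ⟨hu, huq, huPHI⟩ i hi j hj hij c hc d hd hcd
    obtain ⟨hiIc, hlabi⟩ := hJI i hi
    obtain ⟨hjIc, hlabj⟩ := hJI j hj
    have hiIP := hJIP i hi
    have hjIP := hJIP j hj
    have hi0i : i0 ≠ i := fun h => hiIP (h ▸ hi0)
    have hi0j : i0 ≠ j := fun h => hjIP (h ▸ hi0)
    set u' := Function.update (Function.update u i c) j d with hu'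
    have hA' := hupdA u i j c d hu.1 hc hd
    have hS' := hupdS u i j c d hu.2.1 hij hcd
    have huY := hC u hu.1 hu.2.1
    have hu'Y := hC u' hA' hS'
    have hcY : c ∈ Y := by
      have := hu'Y i
      rwa [hu', Function.update_of_ne hij, Function.update_self] at this
    have hdY : d ∈ Y := by
      have := hu'Y j
      rwa [hu', Function.update_self] at this
    have hu'i0 : u' i0 = q := by
      rw [hu', Function.update_of_ne hi0j, Function.update_of_ne hi0i, huq]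
    refine ⟨⟨hA', hS', ?_, ?_⟩, hu'i0, ?_⟩
    · intro s hs hs0
      have hsi : s ≠ i := fun h => hiIP (h ▸ hs)
      have hsj : s ≠ j := fun h => hjIP (h ▸ hs)
      rw [hu', Function.update_of_ne hsj, Function.update_of_ne hsi]
      exact hu.2.2.1 s hs hs0
    · rw [hu'i0]; exact hqP
    · have h5 := sum_updI Ic u (fun i g => 2 * ψ (lab i) * ψ g) hiIc hjIc hij c d
      rw [← hu'] at h5
      have h6 : ψ c + ψ d = ψ (u i) + ψ (u j) :=
        hadd c hcY d hdY (u i) (huY i) (u j) (huY j) hcd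
      show ψ (u' i0) ^ 2 + ∑ i ∈ Ic, 2 * ψ (lab i) * ψ (u' i) = PHI u2
      rw [← huPHI, hu'i0, h5, hlabi, hlabj]
      show _ = ψ (u i0) ^ 2 + ∑ i ∈ Ic, 2 * ψ (lab i) * ψ (u i)
      rw [huq]
      have h7 : ψ d = ψ (u i) + ψ (u j) - ψ c := by linarith
      rw [h7]
      ring

/-- (5.5) NO LEANING -/
theorem no_leaning {A : Finset G} (hA : NUS A) (h2 : ∀ x : G, x + x = 0 → x = 0) {w : ℕ}
    {f t : G → ℝ} {ε e1 κ T N0 : ℝ} {y : G} (hyA : y ∈ A) (hε : 0 < ε) (he1 : 0 < e1)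
    (he1' : e1 ≤ 1) (hT : 1 ≤ T) (hN0 : 4 * T / e1 ^ 2 + 1 ≤ N0)
    (hC1 : 8 * κ * N0 ≤ √(2 * ε) * e1) (hC2 : 4 * √(2 * ε) * N0 ≤ e1)
    (hC4 : 2 * N0 * (64 * T * N0 ^ 2 / e1 ^ 2 + 1) ^ 2 ≤ w)
    (hf1 : ∀ c ∈ A, f c ≤ 1) (ht0 : ∀ c ∈ A, 0 ≤ t c) (hty : t y = 0) (hfy : |f y| ≤ κ / 4)
    (hdist : ∀ c ∈ A, |f c - f y| ≤ √(2 * t c))
    (hf2 : ∀ a ∈ A, ∀ b ∈ A, ∀ c ∈ A, ∀ d ∈ A, a + b = c + d → |f a + f b - (f c + f d)| ≤ ε)
    (ht : AddW A w ε t)
    (hT3 : ∀ r g : ℝ, 2 * ε ≤ r → r ≤ 7 / 10 → κ ≤ g → g ≤ 1 →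
      (#(A.filter fun c => t c ≤ r ∧ g ≤ |f c|) : ℝ) ≤ T * r / g ^ 2)
    {ψ : G → ℝ} (hinj : Set.InjOn ψ (A.filter fun c => t c ≤ 7 / 10))
    (hadd : AddOn (A.filter fun c => t c ≤ 7 / 10) ψ) :
    ∀ d ∈ A, t d ≤ 6 / 10 → f d ≤ √(t d + 2 * ε) * e1 := by
  intro d hdA htd
  by_contra hcon
  push Not at hcon
  set α : ℝ := √(2 * ε) with hα
  have hα0 : 0 < α := Real.sqrt_pos.mpr (by positivity)
  have hα2 : α ^ 2 = 2 * ε := Real.sq_sqrt (by positivity)
  set r : ℝ := t d + 2 * ε with hr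
  set a : ℝ := f d with ha
  have htd0 : 0 ≤ t d := ht0 d hdA
  have hr0 : 0 < r := by positivity
  have hκ0 : 0 ≤ κ := by have := abs_nonneg (f y); linarith
  have he2 : 0 < e1 ^ 2 := by positivity
  have he2' : e1 ^ 2 ≤ 1 := by nlinarith
  have h4T : 4 ≤ 4 * T / e1 ^ 2 := by
    rw [le_div_iff₀ he2]; nlinarith
  have hN5 : 5 ≤ N0 := by linarith
  have hN0' : 0 < N0 := by linarith
  -- `ε` is small
  have hα20 : α ≤ 1 / 20 := by
    have := mul_le_mul_of_nonneg_left hN5 hα0.le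
    linarith
  have hr7 : r ≤ 7 / 10 := by
    have h3 : α ^ 2 ≤ (1 / 20) ^ 2 := pow_le_pow_left₀ hα0.le hα20 2
    rw [hα2] at h3
    norm_num at h3
    linarith
  -- `a`
  have har : √r * e1 < a := hcon
  have hsr : 0 < √r := Real.sqrt_pos.mpr hr0
  have hαr : α ≤ √r := Real.sqrt_le_sqrt (by linarith)
  have ha0 : 0 < a := lt_trans (by positivity) har
  have haα : α * e1 < a := lt_of_le_of_lt (mul_le_mul_of_nonneg_right hαr he1.le) har
  have ha2 : r * e1 ^ 2 < a ^ 2 := by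
    have h3 : (√r * e1) ^ 2 < a ^ 2 := pow_lt_pow_left₀ har (by positivity) two_ne_zero
    rwa [mul_pow, Real.sq_sqrt hr0.le] at h3
  have ha1 : a ≤ 1 := hf1 d hdA
  have hκa : 40 * κ < a := by
    have h3 : 40 * κ ≤ 8 * κ * N0 := by
      have := mul_le_mul_of_nonneg_left hN5 hκ0
      linarith
    linarith
  -- the set `Y`
  set Y : Finset G := A.filter fun c => t c ≤ r with hY
  have hYA : Y ⊆ A := filter_subset _ _
  have hY7 : Y ⊆ A.filter fun c => t c ≤ 7 / 10 := by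
    intro c hc
    obtain ⟨h3, h4⟩ := mem_filter.mp hc
    exact mem_filter.mpr ⟨h3, h4.trans hr7⟩
  -- the number `m`
  set m : ℕ := #(Y.filter fun c => a / 2 ≤ f c) with hm
  have hratio : r / a ^ 2 < 1 / e1 ^ 2 := by
    rw [div_lt_div_iff₀ (by positivity) he2]
    linarith
  have hmN : (m : ℝ) + 1 ≤ N0 := by
    have h3 : (m : ℝ) ≤ #(A.filter fun c => t c ≤ r ∧ a / 2 ≤ |f c|) := by
      rw [hm]
      refine Nat.cast_le.mpr (card_le_card ?_)
      intro c hc
      obtain ⟨h4, h5⟩ := mem_filter.mp hc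
      obtain ⟨h6, h7⟩ := mem_filter.mp h4
      exact mem_filter.mpr ⟨h6, h7, h5.trans (le_abs_self _)⟩
    have h4 := hT3 r (a / 2) (by linarith) hr7 (by linarith) (by linarith)
    have h5 : T * r / (a / 2) ^ 2 = 4 * T * (r / a ^ 2) := by
      field_simp; ring
    rw [h5] at h4
    have h6 : 4 * T * (r / a ^ 2) ≤ 4 * T * (1 / e1 ^ 2) :=
      mul_le_mul_of_nonneg_left hratio.le (by linarith)
    have h7 : 4 * T * (1 / e1 ^ 2) = 4 * T / e1 ^ 2 := by ring
    linarith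
  -- the gap
  set g : ℝ := a / (2 * ((m : ℝ) + 1)) with hg
  have hm1 : (0 : ℝ) < (m : ℝ) + 1 := by positivity
  have hg0 : 0 < g := by positivity
  have hgN : a / (2 * N0) ≤ g := by
    rw [hg]
    apply div_le_div_of_nonneg_left ha0.le (by positivity)
    linarith
  have hgκ : 4 * κ ≤ g := by
    refine le_trans ?_ hgN
    rw [le_div_iff₀ (by positivity)]
    have h3 : 4 * κ * (2 * N0) = 8 * κ * N0 := by ring
    linarith
  have hgε : 4 * ε ≤ g := by
    refine le_trans ?_ hgN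
    rw [le_div_iff₀ (by positivity)]
    have h3 : α * (4 * α * N0) ≤ α * e1 := mul_le_mul_of_nonneg_left hC2 hα0.le
    have h4 : α * (4 * α * N0) = 4 * ε * (2 * N0) := by
      have : α * (4 * α * N0) = 4 * α ^ 2 * N0 := by ring
      rw [this, hα2]; ring
    linarith
  have hga : ((m : ℝ) + 1) * g ≤ a / 2 := by
    rw [hg]
    apply le_of_eq
    field_simp
  obtain ⟨θ, hθ1, hθ2, hgap⟩ := gap (Y := Y) (f := f) hg0 hga le_rfl
  set P : Finset G := Y.filter fun c => θ ≤ f c with hP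
  have hPm : #P ≤ m := card_le_card (by
    intro c hc
    obtain ⟨h3, h4⟩ := mem_filter.mp hc
    exact mem_filter.mpr ⟨h3, by linarith⟩)
  -- the class
  have hN2 : 25 ≤ N0 ^ 2 := by
    have := pow_le_pow_left₀ (by norm_num : (0:ℝ) ≤ 5) hN5 2
    norm_num at this
    linarith
  set X : ℝ := 64 * T * N0 ^ 2 / e1 ^ 2 with hX
  have hX1 : 64 * N0 ^ 2 / e1 ^ 2 ≤ X := by
    rw [hX]
    apply div_le_div_of_nonneg_right _ he2.le
    have h3 : 64 * N0 ^ 2 * 1 ≤ 64 * N0 ^ 2 * T := mul_le_mul_of_nonneg_left hT (by positivity)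
    linarith
  have hX2 : 1600 / e1 ^ 2 ≤ X := by
    refine le_trans ?_ hX1
    apply div_le_div_of_nonneg_right _ he2.le
    linarith
  have hX3 : 1600 ≤ X := by
    refine le_trans ?_ hX2
    rw [le_div_iff₀ he2]; nlinarith
  have hw : (0 : ℝ) < w := lt_of_lt_of_le (by positivity) hC4
  have hw0 : 0 < w := by exact_mod_cast hw
  let i00 : Fin w := ⟨0, hw0⟩
  let u0 : Fin w → G := fun i => if i = i00 then d else y
  set S : G := ∑ i, u0 i with hS
  have hu0A : ∀ i, u0 i ∈ A := by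
    intro i
    show (if i = i00 then d else y) ∈ A
    split_ifs
    · exact hdA
    · exact hyA
  have hu0t : ∑ i, t (u0 i) = t d := by
    rw [sum_eq_single i00]
    · show t (if i00 = i00 then d else y) = t d
      rw [if_pos rfl]
    · intro i _ hi
      show t (if i = i00 then d else y) = 0
      rw [if_neg hi, hty]
    · intro h; exact absurd (mem_univ _) h
  have hCt : ∀ u : Fin w → G, (∀ i, u i ∈ A) → ∑ i, u i = S → ∑ i, t (u i) ≤ t d + ε := by
    intro u hu huS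
    have h3 := (abs_le.mp (ht u u0 hu hu0A huS)).2
    rw [hu0t] at h3
    linarith
  have hCY : ∀ u : Fin w → G, (∀ i, u i ∈ A) → ∑ i, u i = S → ∀ i, u i ∈ Y := by
    intro u hu huS i
    refine mem_filter.mpr ⟨hu i, ?_⟩
    have h3 : t (u i) ≤ ∑ i, t (u i) :=
      single_le_sum (f := fun i => t (u i)) (fun j _ => ht0 _ (hu j)) (mem_univ i)
    have h4 := hCt u hu huS
    linarith
  have hdP : u0 i00 ∈ P := by
    have h3 : u0 i00 = d := if_pos rfl
    rw [h3]
    exact mem_filter.mpr ⟨mem_filter.mpr ⟨hdA, by linarith⟩, hθ2⟩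
  -- few chips in `P`
  have hnP : ∀ u : Fin w → G, (∀ i, u i ∈ A) → ∑ i, u i = S →
      #(univ.filter fun i => u i ∈ P) ≤ ⌊32 / e1 ^ 2⌋₊ := by
    intro u hu huS
    apply Nat.le_floor
    set IP := univ.filter fun i => u i ∈ P with hIP
    have h3 : ∀ i ∈ IP, a ^ 2 / 32 ≤ t (u i) := by
      intro i hi
      have hiP := (mem_filter.mp hi).2
      obtain ⟨h4, h5⟩ := mem_filter.mp hiP
      have h6 := hdist (u i) (hu i)
      have h7 : a / 4 ≤ |f (u i) - f y| := by
        have h8 := (abs_le.mp hfy).2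
        have h9 := le_abs_self (f (u i) - f y)
        linarith
      have h8 := h7.trans h6
      have h9 : (a / 4) ^ 2 ≤ √(2 * t (u i)) ^ 2 := pow_le_pow_left₀ (by positivity) h8 2
      rw [Real.sq_sqrt (by have := ht0 _ (hu i); linarith)] at h9
      have h10 : (a / 4) ^ 2 = a ^ 2 / 16 := by ring
      linarith
    have h4 : (#IP : ℝ) * (a ^ 2 / 32) ≤ ∑ i ∈ IP, t (u i) := by
      rw [← nsmul_eq_mul, ← sum_const]
      exact sum_le_sum h3
    have h5 : ∑ i ∈ IP, t (u i) ≤ ∑ i, t (u i) :=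
      sum_le_sum_of_subset_of_nonneg (subset_univ _) fun i _ _ => ht0 _ (hu i)
    have h6 := hCt u hu huS
    have h7 : (#IP : ℝ) * (a ^ 2 / 32) ≤ r := by linarith
    rw [le_div_iff₀ he2]
    have h8 : (#IP : ℝ) * (r * e1 ^ 2) ≤ (#IP : ℝ) * a ^ 2 :=
      mul_le_mul_of_nonneg_left ha2.le (Nat.cast_nonneg _)
    have h9 : (#IP : ℝ) * e1 ^ 2 * r ≤ 32 * r := by
      have h10 : (#IP : ℝ) * e1 ^ 2 * r = (#IP : ℝ) * (r * e1 ^ 2) := by ring
      have h11 : (#IP : ℝ) * (a ^ 2 / 32) = (#IP : ℝ) * a ^ 2 / 32 := by ring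
      rw [h10]
      linarith
    exact le_of_mul_le_mul_right h9 hr0
  -- the number of chips with one label
  have hXsq : (0 : ℝ) ≤ (X + 1) ^ 2 := by positivity
  have hk : ⌊(X + 1) ^ 2⌋₊ * #P + ⌊32 / e1 ^ 2⌋₊ ≤ w := by
    have h3 : ((⌊(X + 1) ^ 2⌋₊ : ℕ) : ℝ) ≤ (X + 1) ^ 2 := Nat.floor_le hXsq
    have h4 : ((⌊32 / e1 ^ 2⌋₊ : ℕ) : ℝ) ≤ 32 / e1 ^ 2 := Nat.floor_le (by positivity)
    have h5 : (#P : ℝ) ≤ N0 - 1 := by
      have : (#P : ℝ) ≤ m := by exact_mod_cast hPm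
      linarith
    have h6 : 32 / e1 ^ 2 ≤ (X + 1) ^ 2 := by
      have h7 : 32 / e1 ^ 2 ≤ 1600 / e1 ^ 2 :=
        div_le_div_of_nonneg_right (by norm_num) he2.le
      have h8 : (X + 1) ^ 2 = X * X + 2 * X + 1 := by ring
      have h9 : 0 ≤ X * X := mul_self_nonneg X
      linarith
    have h7 : ((⌊(X + 1) ^ 2⌋₊ : ℕ) : ℝ) * (#P : ℝ) ≤ (X + 1) ^ 2 * (N0 - 1) :=
      mul_le_mul h3 h5 (Nat.cast_nonneg _) hXsq
    have h8 : ((⌊(X + 1) ^ 2⌋₊ * #P + ⌊32 / e1 ^ 2⌋₊ : ℕ) : ℝ) ≤ w := by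
      push_cast
      have h9 : (X + 1) ^ 2 * (N0 - 1) = N0 * (X + 1) ^ 2 - (X + 1) ^ 2 := by ring
      have h10 : 0 ≤ N0 * (X + 1) ^ 2 := by positivity
      have h11 : 2 * N0 * (X + 1) ^ 2 = 2 * (N0 * (X + 1) ^ 2) := by ring
      rw [h11] at hC4
      linarith
    exact_mod_cast h8
  have hrg : r / g ^ 2 ≤ 4 * N0 ^ 2 / e1 ^ 2 := by
    rw [div_le_div_iff₀ (by positivity) he2]
    have h3 : a ≤ g * (2 * N0) := (div_le_iff₀ (by positivity)).mp hgN
    have h4 : a ^ 2 ≤ (g * (2 * N0)) ^ 2 := pow_le_pow_left₀ ha0.le h3 2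
    have h5 : (g * (2 * N0)) ^ 2 = 4 * N0 ^ 2 * g ^ 2 := by ring
    linarith
  have hrg' : T * (r / g ^ 2) ≤ X / 16 := by
    have : T * (r / g ^ 2) ≤ T * (4 * N0 ^ 2 / e1 ^ 2) :=
      mul_le_mul_of_nonneg_left hrg (by linarith)
    refine this.trans (le_of_eq ?_)
    rw [hX]; ring
  have hg1 : g ≤ 1 := by
    rw [hg, div_le_one (by positivity)]
    have : (0 : ℝ) ≤ m := Nat.cast_nonneg _
    linarith
  refine core hA h2 hgε hf2 (S := S) (Y := Y) (P := P) hYA (fun c => mem_filter) hgap hCY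
    (hinj.mono (by exact_mod_cast hY7))
    (fun a ha b hb c hc d hd => hadd a (hY7 ha) b (hY7 hb) c (hY7 hc) d (hY7 hd))
    hu0A rfl hdP hnP hk ?_
  intro q _ E hE
  set B : Finset G := Y.filter fun c => g / 2 ≤ f c with hB
  set B' : Finset G := Y.filter fun c => g / 4 ≤ |f c| with hB'
  have hBc : (#B : ℝ) ≤ X / 4 := by
    have h3 : (#B : ℝ) ≤ #(A.filter fun c => t c ≤ r ∧ g / 2 ≤ |f c|) := by
      refine Nat.cast_le.mpr (card_le_card ?_)
      intro c hc
      obtain ⟨h4, h5⟩ := mem_filter.mp hc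
      obtain ⟨h6, h7⟩ := mem_filter.mp h4
      exact mem_filter.mpr ⟨h6, h7, h5.trans (le_abs_self _)⟩
    have h4 := hT3 r (g / 2) (by linarith) hr7 (by linarith) (by linarith)
    have h5 : T * r / (g / 2) ^ 2 = 4 * (T * (r / g ^ 2)) := by field_simp; ring
    rw [h5] at h4
    linarith
  have hBc' : (#B' : ℝ) ≤ X := by
    have h3 : (#B' : ℝ) ≤ #(A.filter fun c => t c ≤ r ∧ g / 4 ≤ |f c|) := by
      refine Nat.cast_le.mpr (card_le_card ?_)
      intro c hc
      obtain ⟨h4, h5⟩ := mem_filter.mp hc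
      obtain ⟨h6, h7⟩ := mem_filter.mp h4
      exact mem_filter.mpr ⟨h6, h7, h5⟩
    have h4 := hT3 r (g / 4) (by linarith) hr7 (by linarith) (by linarith)
    have h5 : T * r / (g / 4) ^ 2 = 16 * (T * (r / g ^ 2)) := by field_simp; ring
    rw [h5] at h4
    linarith
  have hEsub : E ⊆ ((B ×ˢ B).image fun b => b.1 + b.2 - q) ∪ B' := by
    intro c hc
    obtain ⟨hcY, h3 | h3⟩ := hE c hc
    · obtain ⟨b, hb, b', hb', h4, h5, h6⟩ := h3
      refine mem_union_left _ (mem_image.mpr ⟨(b, b'), ?_, h6.symm⟩)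
      exact mem_product.mpr ⟨mem_filter.mpr ⟨hb, h4⟩, mem_filter.mpr ⟨hb', h5⟩⟩
    · exact mem_union_right _ (mem_filter.mpr ⟨hcY, h3⟩)
  have hEc : (#E : ℝ) ≤ (#B : ℝ) * #B + #B' := by
    have h3 : #E ≤ #B * #B + #B' := by
      refine (card_le_card hEsub).trans ((card_union_le _ _).trans ?_)
      have h4 := card_image_le (s := B ×ˢ B) (f := fun b => b.1 + b.2 - q)
      rw [card_product] at h4
      omega
    exact_mod_cast h3
  have hfin : #E + 1 ≤ ⌊(X + 1) ^ 2⌋₊ := by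
    apply Nat.le_floor
    push_cast
    have h3 : (0 : ℝ) ≤ #B := Nat.cast_nonneg _
    have h4 : (#B : ℝ) * #B ≤ X / 4 * (X / 4) := mul_le_mul hBc hBc h3 (by positivity)
    have h5 : (X + 1) ^ 2 = X * X + 2 * X + 1 := by ring
    have h6 : X / 4 * (X / 4) = X * X / 16 := by ring
    have h7 : 0 ≤ X * X := mul_self_nonneg X
    linarith
  omega

end PoolBe0380.E
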