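import Mathlib

/-!
# be0380, (5.8)(i)-(ii): the rank

`Comp X Y φ φ'`: `φ p + φ' q = φ c + φ' d` for `p, c ∈ X`, `q, d ∈ Y`, `p + q = c + d`.
If every `p ∈ X \ EX`, `q ∈ Y \ EY` have a twin `c ∈ X`, `d ∈ Y`, `c ≠ p`, and `ψ, ψ'` is a compatible
pair of injective functions, then the compatible pairs have a projection of rank at most
`#EX + #EY + 1`.
-/

set_option autoImplicit false

namespace PoolBe0380.E

open Finset Module

/-- compatible pairs of functions -/
def Comp {G : Type*} [AddCommGroup G] (X Y : Finset G) (φ φ' : G → ℝ) : Prop :=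
  ∀ p ∈ X, ∀ c ∈ X, ∀ q ∈ Y, ∀ d ∈ Y, p + q = c + d → φ p + φ' q = φ c + φ' d

variable {G : Type*} [AddCommGroup G]

/-- compatible pairs of functions on the subtypes -/
private def CV (X Y : Finset G) : Submodule ℝ ((X → ℝ) × (Y → ℝ)) where
  carrier := {v | ∀ p c : X, ∀ q d : Y, (p : G) + q = c + d → v.1 p + v.2 q = v.1 c + v.2 d}
  add_mem' := by
    intro v v' hv hv' p c q d h
    have h1 := hv p c q d h
    have h2 := hv' p c q d h
    show (v.1 p + v'.1 p) + (v.2 q + v'.2 q) = (v.1 c + v'.1 c) + (v.2 d + v'.2 d)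
    linarith
  zero_mem' := by
    intro p c q d _
    show (0 : ℝ) + 0 = 0 + 0
    rfl
  smul_mem' := by
    intro s v hv p c q d h
    have h1 := hv p c q d h
    show s * v.1 p + s * v.2 q = s * v.1 c + s * v.2 d
    rw [← mul_add, ← mul_add, h1]

/-- (i) -/
private theorem no_pos {X Y EX EY : Finset G} {ψ ψ' : G → ℝ} (hinj : Set.InjOn ψ X)
    (hψ : Comp X Y ψ ψ')
    (htw : ∀ p ∈ X, p ∉ EX → ∀ q ∈ Y, q ∉ EY → ∃ c ∈ X, ∃ d ∈ Y, c + d = p + q ∧ c ≠ p)
    {v : (X → ℝ) × (Y → ℝ)} (hv : v ∈ CV X Y) (hEX : ∀ p : X, (p : G) ∈ EX → v.1 p = 0)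
    (hEY : ∀ q : Y, (q : G) ∈ EY → v.2 q = 0) {p0 : X} (hp0 : 0 < v.1 p0) {q0 : Y}
    (hq0 : 0 < v.2 q0) : False := by
  classical
  obtain ⟨pm, -, hpm⟩ := exists_max_image (univ : Finset X) v.1 ⟨p0, mem_univ _⟩
  obtain ⟨qm, -, hqm⟩ := exists_max_image (univ : Finset Y) v.2 ⟨q0, mem_univ _⟩
  obtain ⟨p, hp, hpmax⟩ := exists_max_image (univ.filter fun p : X => v.1 p = v.1 pm)
    (fun p : X => ψ p) ⟨pm, mem_filter.mpr ⟨mem_univ _, rfl⟩⟩
  obtain ⟨q, hq, hqmax⟩ := exists_max_image (univ.filter fun q : Y => v.2 q = v.2 qm)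
    (fun q : Y => ψ' q) ⟨qm, mem_filter.mpr ⟨mem_univ _, rfl⟩⟩
  have hp1 : v.1 p = v.1 pm := (mem_filter.mp hp).2
  have hq1 : v.2 q = v.2 qm := (mem_filter.mp hq).2
  have hppos : 0 < v.1 p := by rw [hp1]; exact hp0.trans_le (hpm p0 (mem_univ _))
  have hqpos : 0 < v.2 q := by rw [hq1]; exact hq0.trans_le (hqm q0 (mem_univ _))
  obtain ⟨c, hc, d, hd, hcd, hcp⟩ := htw p p.2 (fun h => hppos.ne' (hEX p h)) q q.2
    (fun h => hqpos.ne' (hEY q h))
  have h1 := hv p ⟨c, hc⟩ q ⟨d, hd⟩ hcd.symm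
  have h2 := hpm ⟨c, hc⟩ (mem_univ _)
  have h3 := hqm ⟨d, hd⟩ (mem_univ _)
  have h4 : v.1 ⟨c, hc⟩ = v.1 pm := by linarith
  have h5 : v.2 ⟨d, hd⟩ = v.2 qm := by linarith
  have h6 : ψ c ≤ ψ p := hpmax ⟨c, hc⟩ (mem_filter.mpr ⟨mem_univ _, h4⟩)
  have h7 : ψ' d ≤ ψ' q := hqmax ⟨d, hd⟩ (mem_filter.mpr ⟨mem_univ _, h5⟩)
  have h8 := hψ p p.2 c hc q q.2 d hd hcd.symm
  have h9 : ψ c = ψ p := by linarith
  exact hcp (hinj (by exact_mod_cast hc) (by exact_mod_cast p.2) h9)

/-- two elements of `W` are dependent if no nonzero element has a vanishing component -/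
private theorem dep {α β : Type*} [Fintype α] [Fintype β] (W : Submodule ℝ ((α → ℝ) × (β → ℝ)))
    (hpos : ∀ v ∈ W, ∀ a b, ¬ (0 < v.1 a ∧ 0 < v.2 b))
    (h1 : ∀ v ∈ W, v.1 = 0 → v = 0) (h2 : ∀ v ∈ W, v.2 = 0 → v = 0) :
    finrank ℝ W ≤ 1 := by
  classical
  -- every element of `W` has one of two sign patterns
  have hpat : ∀ v ∈ W, ((∀ a, 0 ≤ v.1 a) ∧ ∀ b, v.2 b ≤ 0) ∨ ((∀ a, v.1 a ≤ 0) ∧ ∀ b, 0 ≤ v.2 b) := by
    intro v hv
    by_cases hv0 : v = 0
    · left; subst hv0; exact ⟨fun a => le_rfl, fun b => le_rfl⟩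
    by_cases hp : ∃ a, 0 < v.1 a
    · obtain ⟨a, ha⟩ := hp
      have h3 : ∀ b, v.2 b ≤ 0 := fun b => by
        by_contra h
        exact hpos v hv a b ⟨ha, not_le.mp h⟩
      left
      refine ⟨fun a' => ?_, h3⟩
      by_contra h
      push Not at h
      apply hv0
      refine h2 v hv ?_
      funext b
      refine le_antisymm (h3 b) ?_
      by_contra hb
      refine hpos (-v) (W.neg_mem hv) a' b ⟨?_, ?_⟩
      · show 0 < - v.1 a'
        linarith
      · show 0 < - v.2 b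
        rw [not_le] at hb
        have : v.2 b < 0 := hb
        linarith
    · push Not at hp
      by_cases hn : ∃ a, v.1 a < 0
      · obtain ⟨a, ha⟩ := hn
        right
        refine ⟨hp, fun b => ?_⟩
        by_contra hb
        refine hpos (-v) (W.neg_mem hv) a b ⟨?_, ?_⟩
        · show 0 < - v.1 a
          linarith
        · show 0 < - v.2 b
          rw [not_le] at hb
          linarith
      · push Not at hn
        exact absurd (h1 v hv (by funext a; exact le_antisymm (hp a) (hn a))) hv0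
  by_cases hW : ∀ v ∈ W, v = 0
  · have : W = ⊥ := (Submodule.eq_bot_iff W).mpr hW
    rw [this, finrank_bot]
    exact zero_le_one
  push Not at hW
  obtain ⟨v2', hv2', hv2'0⟩ := hW
  -- an element of the first pattern
  obtain ⟨v2, hv2, hv20, hp2⟩ : ∃ v2 ∈ W, v2 ≠ 0 ∧ ((∀ a, 0 ≤ v2.1 a) ∧ ∀ b, v2.2 b ≤ 0) := by
    rcases hpat v2' hv2' with h | h
    · exact ⟨v2', hv2', hv2'0, h⟩
    · refine ⟨-v2', W.neg_mem hv2', neg_ne_zero.mpr hv2'0, fun a => ?_, fun b => ?_⟩
      · show 0 ≤ - v2'.1 a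
        have := h.1 a; linarith
      · show - v2'.2 b ≤ 0
        have := h.2 b; linarith
  -- the elements of the first pattern are multiples of `v2`
  have hmul : ∀ v ∈ W, ((∀ a, 0 ≤ v.1 a) ∧ ∀ b, v.2 b ≤ 0) → ∃ s : ℝ, s • v2 = v := by
    intro v hv hpv
    have hne : (univ.filter fun a => 0 < v2.1 a).Nonempty := by
      by_contra h
      rw [not_nonempty_iff_eq_empty] at h
      apply hv20
      refine h1 v2 hv2 ?_
      funext a
      refine le_antisymm ?_ (hp2.1 a)
      by_contra h3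
      have : a ∈ (univ.filter fun a => 0 < v2.1 a) := mem_filter.mpr ⟨mem_univ _, not_le.mp h3⟩
      rw [h] at this
      exact absurd this (notMem_empty _)
    obtain ⟨am, ham, hmin⟩ := exists_min_image _ (fun a => v.1 a / v2.1 a) hne
    have ham0 : 0 < v2.1 am := (mem_filter.mp ham).2
    set s : ℝ := v.1 am / v2.1 am with hs
    refine ⟨s, ?_⟩
    have hu : v - s • v2 ∈ W := W.sub_mem hv (W.smul_mem s hv2)
    have hu1 : ∀ a, 0 ≤ v.1 a - s * v2.1 a := by
      intro a
      rcases (hp2.1 a).eq_or_lt with h | h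
      · rw [← h, mul_zero, sub_zero]; exact hpv.1 a
      · have h3 := hmin a (mem_filter.mpr ⟨mem_univ _, h⟩)
        have h4 : s * v2.1 a ≤ v.1 a := (le_div_iff₀ h).mp h3
        linarith
    have hu2 : ∀ a, v.1 a - s * v2.1 a ≤ 0 := by
      intro a
      -- for every `δ > 0` the element `v - (s + δ) v2` has the second pattern
      have hδ : ∀ δ : ℝ, 0 < δ → v.1 a - s * v2.1 a ≤ δ * v2.1 a := by
        intro δ hδ
        have hw : v - (s + δ) • v2 ∈ W := W.sub_mem hv (W.smul_mem _ hv2)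
        rcases hpat _ hw with h | h
        · exfalso
          have h3 : 0 ≤ v.1 am - (s + δ) * v2.1 am := h.1 am
          have h4 : s * v2.1 am = v.1 am := div_mul_cancel₀ _ ham0.ne'
          have h5 : 0 < δ * v2.1 am := mul_pos hδ ham0
          nlinarith
        · have h3 : v.1 a - (s + δ) * v2.1 a ≤ 0 := h.1 a
          linarith
      by_contra h
      push Not at h
      rcases (hp2.1 a).eq_or_lt with h3 | h3
      · have := hδ 1 one_pos
        rw [← h3] at this h
        linarith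
      · have h4 := hδ ((v.1 a - s * v2.1 a) / (2 * v2.1 a)) (by positivity)
        have h5 : (v.1 a - s * v2.1 a) / (2 * v2.1 a) * v2.1 a = (v.1 a - s * v2.1 a) / 2 := by
          field_simp
        rw [h5] at h4
        linarith
    have hu0 : v - s • v2 = 0 := by
      refine h1 _ hu ?_
      funext a
      exact le_antisymm (hu2 a) (hu1 a)
    exact (sub_eq_zero.mp hu0).symm
  refine finrank_le_one (⟨v2, hv2⟩ : W) ?_
  rintro ⟨v, hv⟩
  rcases hpat v hv with h | h
  · obtain ⟨s, hs⟩ := hmul v hv h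
    exact ⟨s, Subtype.ext hs⟩
  · obtain ⟨s, hs⟩ := hmul (-v) (W.neg_mem hv) ⟨fun a => by
      show 0 ≤ - v.1 a
      have := h.1 a; linarith, fun b => by
      show - v.2 b ≤ 0
      have := h.2 b; linarith⟩
    refine ⟨-s, Subtype.ext ?_⟩
    show (-s) • v2 = v
    rw [neg_smul, hs, neg_neg]

/-- (ii) -/
theorem rank {X Y EX EY : Finset G} {ψ ψ' : G → ℝ} (hinj : Set.InjOn ψ X)
    (hψ : Comp X Y ψ ψ')
    (htw : ∀ p ∈ X, p ∉ EX → ∀ q ∈ Y, q ∉ EY → ∃ c ∈ X, ∃ d ∈ Y, c + d = p + q ∧ c ≠ p) :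
    (∃ U : Submodule ℝ (X → ℝ), finrank ℝ U ≤ #EX + #EY + 1 ∧
      ∀ φ φ' : G → ℝ, Comp X Y φ φ' → (fun c : X => φ c) ∈ U) ∨
    (∃ U : Submodule ℝ (Y → ℝ), finrank ℝ U ≤ #EX + #EY + 1 ∧
      ∀ φ φ' : G → ℝ, Comp X Y φ φ' → (fun c : Y => φ' c) ∈ U) := by
  classical
  set V := CV X Y with hV
  -- the restriction to `EX`, `EY`
  let R : ((X → ℝ) × (Y → ℝ)) →ₗ[ℝ] (EX → ℝ) × (EY → ℝ) :=
    { toFun := fun v => (fun e => if h : (e : G) ∈ X then v.1 ⟨e, h⟩ else 0,
        fun e => if h : (e : G) ∈ Y then v.2 ⟨e, h⟩ else 0)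
      map_add' := by
        intro v v'
        refine Prod.ext ?_ ?_
        · funext e
          show (if h : (e : G) ∈ X then (v + v').1 ⟨e, h⟩ else 0) =
            (if h : (e : G) ∈ X then v.1 ⟨e, h⟩ else 0) + (if h : (e : G) ∈ X then v'.1 ⟨e, h⟩ else 0)
          split_ifs
          · rfl
          · rw [add_zero]
        · funext e
          show (if h : (e : G) ∈ Y then (v + v').2 ⟨e, h⟩ else 0) =
            (if h : (e : G) ∈ Y then v.2 ⟨e, h⟩ else 0) + (if h : (e : G) ∈ Y then v'.2 ⟨e, h⟩ else 0)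
          split_ifs
          · rfl
          · rw [add_zero]
      map_smul' := by
        intro s v
        refine Prod.ext ?_ ?_
        · funext e
          show (if h : (e : G) ∈ X then (s • v).1 ⟨e, h⟩ else 0) =
            s * (if h : (e : G) ∈ X then v.1 ⟨e, h⟩ else 0)
          split_ifs
          · rfl
          · rw [mul_zero]
        · funext e
          show (if h : (e : G) ∈ Y then (s • v).2 ⟨e, h⟩ else 0) =
            s * (if h : (e : G) ∈ Y then v.2 ⟨e, h⟩ else 0)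
          split_ifs
          · rfl
          · rw [mul_zero] }
  let RV : V →ₗ[ℝ] (EX → ℝ) × (EY → ℝ) := R.domRestrict V
  let pX : V →ₗ[ℝ] (X → ℝ) := (LinearMap.fst ℝ _ _).domRestrict V
  let pY : V →ₗ[ℝ] (Y → ℝ) := (LinearMap.snd ℝ _ _).domRestrict V
  have hRX : ∀ v : V, RV v = 0 → ∀ p : X, (p : G) ∈ EX → v.1.1 p = 0 := by
    intro v hv p hp
    have h1 := congrFun (congrArg Prod.fst hv) ⟨p, hp⟩
    change (if h : (p : G) ∈ X then v.1.1 ⟨p, h⟩ else 0) = 0 at h1
    rwa [dif_pos p.2] at h1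
  have hRY : ∀ v : V, RV v = 0 → ∀ q : Y, (q : G) ∈ EY → v.1.2 q = 0 := by
    intro v hv q hq
    have h1 := congrFun (congrArg Prod.snd hv) ⟨q, hq⟩
    change (if h : (q : G) ∈ Y then v.1.2 ⟨q, h⟩ else 0) = 0 at h1
    rwa [dif_pos q.2] at h1
  have hno : ∀ v : V, RV v = 0 → ∀ a b, ¬ (0 < v.1.1 a ∧ 0 < v.1.2 b) := by
    rintro v hv a b ⟨h1, h2⟩
    exact no_pos hinj hψ htw v.2 (hRX v hv) (hRY v hv) h1 h2
  have hrange : finrank ℝ (LinearMap.range RV) ≤ #EX + #EY := by
    refine (Submodule.finrank_le _).trans (le_of_eq ?_)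
    rw [finrank_prod, finrank_fintype_fun_eq_card, finrank_fintype_fun_eq_card, Fintype.card_coe,
      Fintype.card_coe]
  have hRn := LinearMap.finrank_range_add_finrank_ker RV
  have hmem : ∀ φ φ' : G → ℝ, Comp X Y φ φ' →
      ((fun c : X => φ c, fun c : Y => φ' c) : (X → ℝ) × (Y → ℝ)) ∈ V := by
    intro φ φ' h p c q d hpq
    exact h p p.2 c c.2 q q.2 d d.2 hpq
  -- a projection that kills the kernel of `RV` up to a line has small rank
  by_cases c1 : ∃ v : V, RV v = 0 ∧ v.1.1 = 0 ∧ v.1.2 ≠ 0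
  · -- case 1: the first components of the kernel vanish
    left
    obtain ⟨w0, hw0, hw01, hw02⟩ := c1
    have hker : LinearMap.ker RV ≤ LinearMap.ker pX := by
      intro v hv
      rw [LinearMap.mem_ker] at hv ⊢
      have key : ∀ v : V, RV v = 0 → ∀ a, v.1.1 a ≤ 0 := by
        intro v hv a
        by_contra ha
        push Not at ha
        apply hw02
        funext b
        by_contra hb
        have hb' : w0.1.2 b ≠ 0 := hb
        set s : ℝ := (1 - v.1.2 b) / w0.1.2 b with hs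
        have h1 : RV (v + s • w0) = 0 := by rw [map_add, map_smul, hv, hw0, smul_zero, add_zero]
        refine hno (v + s • w0) h1 a b ⟨?_, ?_⟩
        · show 0 < v.1.1 a + s * w0.1.1 a
          rw [hw01]
          show 0 < v.1.1 a + s * 0
          rw [mul_zero, add_zero]; exact ha
        · show 0 < v.1.2 b + s * w0.1.2 b
          rw [hs, div_mul_cancel₀ _ hb']
          linarith
      show v.1.1 = 0
      funext a
      refine le_antisymm (key v hv a) ?_
      have h1 := key (-v) (by rw [map_neg, hv, neg_zero]) a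
      change - v.1.1 a ≤ 0 at h1
      show 0 ≤ v.1.1 a
      linarith
    refine ⟨LinearMap.range pX, ?_, fun φ φ' h => ⟨⟨_, hmem φ φ' h⟩, rfl⟩⟩
    have h1 := LinearMap.finrank_range_add_finrank_ker pX
    have h2 := Submodule.finrank_mono hker
    omega
  by_cases c2 : ∃ v : V, RV v = 0 ∧ v.1.2 = 0 ∧ v.1.1 ≠ 0
  · right
    obtain ⟨w0, hw0, hw02, hw01⟩ := c2
    have hker : LinearMap.ker RV ≤ LinearMap.ker pY := by
      intro v hv
      rw [LinearMap.mem_ker] at hv ⊢
      have key : ∀ v : V, RV v = 0 → ∀ b, v.1.2 b ≤ 0 := by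
        intro v hv b
        by_contra hb
        push Not at hb
        apply hw01
        funext a
        by_contra ha
        have ha' : w0.1.1 a ≠ 0 := ha
        set s : ℝ := (1 - v.1.1 a) / w0.1.1 a with hs
        have h1 : RV (v + s • w0) = 0 := by rw [map_add, map_smul, hv, hw0, smul_zero, add_zero]
        refine hno (v + s • w0) h1 a b ⟨?_, ?_⟩
        · show 0 < v.1.1 a + s * w0.1.1 a
          rw [hs, div_mul_cancel₀ _ ha']
          linarith
        · show 0 < v.1.2 b + s * w0.1.2 b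
          rw [hw02]
          show 0 < v.1.2 b + s * 0
          rw [mul_zero, add_zero]; exact hb
      show v.1.2 = 0
      funext b
      refine le_antisymm (key v hv b) ?_
      have h1 := key (-v) (by rw [map_neg, hv, neg_zero]) b
      change - v.1.2 b ≤ 0 at h1
      show 0 ≤ v.1.2 b
      linarith
    refine ⟨LinearMap.range pY, ?_, fun φ φ' h => ⟨⟨_, hmem φ φ' h⟩, rfl⟩⟩
    have h1 := LinearMap.finrank_range_add_finrank_ker pY
    have h2 := Submodule.finrank_mono hker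
    omega
  -- case 3: the kernel is at most a line
  push Not at c1 c2
  left
  have hW : finrank ℝ (LinearMap.ker RV) ≤ 1 := by
    have h1 : finrank ℝ ((LinearMap.ker RV).map V.subtype) ≤ 1 := by
      refine dep _ ?_ ?_ ?_
      · rintro v ⟨v', hv', rfl⟩ a b
        exact hno v' hv' a b
      · rintro v ⟨v', hv', rfl⟩ h
        have h3 := c1 v' hv' h
        exact Prod.ext h h3
      · rintro v ⟨v', hv', rfl⟩ h
        have h3 := c2 v' hv' h
        exact Prod.ext h3 h
    rwa [← (Submodule.equivMapOfInjective V.subtype (Submodule.injective_subtype V)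
      (LinearMap.ker RV)).finrank_eq] at h1
  refine ⟨LinearMap.range pX, ?_, fun φ φ' h => ⟨⟨_, hmem φ φ' h⟩, rfl⟩⟩
  have h1 := LinearMap.finrank_range_add_finrank_ker pX
  omega

end PoolBe0380.E
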