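import Mathlib

/-!
# be0380, (0.4): the reach lemma

`NUS A`: no unordered pair of elements of `A` has a unique sum. A class `P` of functions
`y : ι → G` (chips) with values in `A`, closed under pair moves of the chips with indices in `J`,
all these chips lying in a set `E` with an injective additive function, has `#J ≤ #E`.
-/

set_option autoImplicit false

namespace PoolBe0380.E

open Finset

/-- no unordered pair of elements of `A` has a unique sum -/
def NUS {G : Type*} [AddCommGroup G] (A : Finset G) : Prop :=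
  ∀ a ∈ A, ∀ b ∈ A, ∃ c ∈ A, ∃ d ∈ A, c + d = a + b ∧ s(c, d) ≠ s(a, b)

/-- `ψ` respects the sums of two elements of `E` -/
def AddOn {G : Type*} [AddCommGroup G] (E : Finset G) (ψ : G → ℝ) : Prop :=
  ∀ a ∈ E, ∀ b ∈ E, ∀ c ∈ E, ∀ d ∈ E, a + b = c + d → ψ a + ψ b = ψ c + ψ d

variable {G : Type*} [AddCommGroup G] [DecidableEq G]

omit [AddCommGroup G] [DecidableEq G] in
theorem sum_upd {ι : Type*} [DecidableEq ι] {M : Type*} [AddCommGroup M] (J : Finset ι) (y : ι → G)
    (F : G → M) {i j : ι} (hi : i ∈ J) (hj : j ∈ J) (hij : i ≠ j) (c d : G) :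
    ∑ k ∈ J, F (Function.update (Function.update y i c) j d k) =
      ∑ k ∈ J, F (y k) + (F c + F d - F (y i) - F (y j)) := by
  have hj' : j ∈ J.erase i := mem_erase.mpr ⟨hij.symm, hj⟩
  rw [← add_sum_erase J _ hi, ← add_sum_erase (J.erase i) _ hj',
    ← add_sum_erase J (fun k => F (y k)) hi, ← add_sum_erase (J.erase i) (fun k => F (y k)) hj']
  have h1 : Function.update (Function.update y i c) j d i = c := by
    rw [Function.update_of_ne hij, Function.update_self]
  have h2 : Function.update (Function.update y i c) j d j = d := Function.update_self _ _ _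
  rw [h1, h2]
  have h3 : ∑ k ∈ (J.erase i).erase j, F (Function.update (Function.update y i c) j d k) =
      ∑ k ∈ (J.erase i).erase j, F (y k) := by
    refine sum_congr rfl fun k hk => ?_
    rw [mem_erase, mem_erase] at hk
    rw [Function.update_of_ne hk.1, Function.update_of_ne hk.2.1]
  rw [h3]
  abel

/-- the reach lemma -/
theorem reach {ι : Type*} [Fintype ι] [DecidableEq ι] {A : Finset G} (hA : NUS A)
    (h2 : ∀ x : G, x + x = 0 → x = 0) {E : Finset G} (hEA : E ⊆ A) {ψ : G → ℝ}
    (hinj : Set.InjOn ψ E) (hadd : AddOn E ψ) (J : Finset ι) (P : (ι → G) → Prop)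
    (h0 : ∃ y, P y) (hPA : ∀ y, P y → ∀ i, y i ∈ A) (hPE : ∀ y, P y → ∀ i ∈ J, y i ∈ E)
    (hstep : ∀ y, P y → ∀ i ∈ J, ∀ j ∈ J, i ≠ j → ∀ c ∈ A, ∀ d ∈ A, c + d = y i + y j →
      P (Function.update (Function.update y i c) j d)) :
    #J ≤ #E := by
  classical
  by_contra hcon
  push Not at hcon
  -- the functions in the class
  obtain ⟨y0, hy0⟩ := h0
  have hne : ((Fintype.piFinset fun _ : ι => A).filter P).Nonempty :=
    ⟨y0, mem_filter.mpr ⟨Fintype.mem_piFinset.mpr (hPA y0 hy0), hy0⟩⟩
  obtain ⟨y, hy, hmax⟩ := exists_max_image _ (fun y : ι → G => ∑ k ∈ J, ψ (y k) ^ 2) hne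
  have hyP : P y := (mem_filter.mp hy).2
  obtain ⟨i, hi, j, hj, hij, hyij⟩ := exists_ne_map_eq_of_card_lt_of_maps_to hcon
    (f := y) (fun i hi => hPE y hyP i hi)
  have haA : y i ∈ A := hPA y hyP i
  obtain ⟨c, hc, d, hd, hcd, hne2⟩ := hA (y i) haA (y i) haA
  have hcd' : c + d = y i + y j := by rw [hcd, hyij]
  have hP' := hstep y hyP i hi j hj hij c hc d hd hcd'
  have hcE : c ∈ E := by
    have := hPE _ hP' i hi
    rwa [Function.update_of_ne hij, Function.update_self] at this
  have hdE : d ∈ E := by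
    have := hPE _ hP' j hj
    rwa [Function.update_self] at this
  have hcne : c ≠ d := by
    intro h
    subst h
    have h3 : (c - y i) + (c - y i) = 0 := by
      calc (c - y i) + (c - y i) = (c + c) - (y i + y i) := by abel
        _ = 0 := by rw [hcd, sub_self]
    have h4 : c = y i := sub_eq_zero.mp (h2 _ h3)
    exact hne2 (by rw [h4])
  have hψ : ψ c + ψ d = ψ (y i) + ψ (y j) :=
    hadd c hcE d hdE (y i) (hPE y hyP i hi) (y j) (hPE y hyP j hj) hcd'
  have hψne : ψ c ≠ ψ d := fun h => hcne (hinj hcE hdE h)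
  have hle := hmax _ (mem_filter.mpr ⟨Fintype.mem_piFinset.mpr (hPA _ hP'), hP'⟩)
  have hsum := sum_upd J y (fun g => ψ g ^ 2) hi hj hij c d
  rw [hsum] at hle
  have h5 : 0 < (ψ c - ψ d) ^ 2 := by
    have := sub_ne_zero.mpr hψne
    positivity
  rw [← hyij] at hψ hle
  have h6 : ψ (y i) = (ψ c + ψ d) / 2 := by linarith
  rw [h6] at hle
  nlinarith

end PoolBe0380.E
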